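import Pool.Agent.Helper15.T4.Stmts

set_option autoImplicit false

namespace Pool.Agent.Helper52.T4

open Finset MeasureTheory Filter Topology
open Pool.Agent.Helper15.T4

section gen

variable {ι : Type} [Fintype ι]

theorem nsq_nonneg' (x : ι → ℝ) : 0 ≤ nsq x := Finset.sum_nonneg (fun _ _ => sq_nonneg _)

theorem nsq_cont : Continuous (fun x : ι → ℝ => nsq x) := by
  unfold nsq
  fun_prop

theorem nsq_smul (s : ℝ) (x : ι → ℝ) : nsq (s • x) = s ^ 2 * nsq x := by
  unfold nsq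
  rw [Finset.mul_sum]
  exact Finset.sum_congr rfl (fun i _ => by simp [mul_pow])

theorem nsq_neg (x : ι → ℝ) : nsq (-x) = nsq x := by
  unfold nsq
  exact Finset.sum_congr rfl (fun i _ => by simp)

theorem nsq_zero : nsq (0 : ι → ℝ) = 0 := by
  unfold nsq
  simp

theorem nsq_eq_zero {x : ι → ℝ} (h : nsq x = 0) : x = 0 := by
  unfold nsq at h
  rw [Finset.sum_eq_zero_iff_of_nonneg (fun i _ => sq_nonneg _)] at h
  funext i
  simpa using h i (Finset.mem_univ i)

theorem compact_nsq (R : ℝ) : IsCompact {x : ι → ℝ | nsq x ≤ R} := by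
  refine IsCompact.of_isClosed_subset (isCompact_closedBall (0 : ι → ℝ) (Real.sqrt R)) ?_ ?_
  · exact isClosed_le nsq_cont continuous_const
  · intro x hx
    rw [mem_closedBall_zero_iff, pi_norm_le_iff_of_nonneg (Real.sqrt_nonneg _)]
    intro i
    rw [Real.norm_eq_abs]
    apply Real.abs_le_sqrt
    refine le_trans ?_ hx
    exact Finset.single_le_sum (f := fun i => x i ^ 2) (fun i _ => sq_nonneg _)
      (Finset.mem_univ i)

theorem gauss_eq (b : ℝ) : (fun x : ι → ℝ => Real.exp (-(b * nsq x))) =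
    fun x => ∏ i, Real.exp (-b * x i ^ 2) := by
  funext x
  rw [← Real.exp_sum]
  congr 1
  unfold nsq
  rw [Finset.mul_sum, ← Finset.sum_neg_distrib]
  exact Finset.sum_congr rfl (fun i _ => by ring)

theorem gauss_int {b : ℝ} (hb : 0 < b) :
    Integrable (fun x : ι → ℝ => Real.exp (-(b * nsq x))) := by
  rw [gauss_eq]
  exact Integrable.fintype_prod (fun _ => integrable_exp_neg_mul_sq hb)

theorem gauss_val (b : ℝ) : ∫ x : ι → ℝ, Real.exp (-(b * nsq x)) =
    Real.sqrt (Real.pi / b) ^ Fintype.card ι := by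
  rw [gauss_eq, integral_fintype_prod_volume_eq_pow (fun x : ℝ => Real.exp (-b * x ^ 2)),
    integral_gaussian]

theorem t_exp (t : ℝ) : t * Real.exp (-(t - 1)) ≤ 1 := by
  have h1 : t ≤ Real.exp (t - 1) := by
    have := Real.add_one_le_exp (t - 1)
    linarith
  rw [Real.exp_neg, ← div_eq_mul_inv, div_le_one (Real.exp_pos _)]
  exact h1

theorem t_exp_eq {t : ℝ} (h : t * Real.exp (-(t - 1)) = 1) : t = 1 := by
  by_contra hne
  have h1 : t < Real.exp (t - 1) := by
    have := Real.add_one_lt_exp (x := t - 1) (fun hc => hne (by linarith))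
    linarith
  rw [Real.exp_neg, ← div_eq_mul_inv, div_eq_one_iff_eq (Real.exp_pos _).ne'] at h
  linarith

theorem t_exp2 (t : ℝ) : t * Real.exp (-(t - 1)) ≤ 2 * Real.exp (-(t / 2)) := by
  have h1 := t_exp (t / 2)
  have h2 : Real.exp (-(t - 1)) = Real.exp (-(t / 2 - 1)) * Real.exp (-(t / 2)) := by
    rw [← Real.exp_add]
    congr 1
    ring
  rw [h2, ← mul_assoc]
  refine mul_le_mul_of_nonneg_right ?_ (Real.exp_pos _).le
  linarith

end gen

section pk

variable {ι : Type} [Fintype ι] {P : (ι → ℝ) → ℂ} {u : ι → ℝ} {q : ℝ} {Q : (ι → ℝ) → ℂ}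

/-- the normalised absolute value -/
noncomputable def FF (P : (ι → ℝ) → ℂ) (q : ℝ) (y : ι → ℝ) : ℝ :=
  ‖P y‖ * Real.exp (-(3 / 2) * (nsq y - 1)) / q

theorem FF_nonneg (hq : 0 < q) (y : ι → ℝ) : 0 ≤ FF P q y := by
  unfold FF
  positivity

theorem FF_cont (hP : Continuous P) : Continuous (FF P q) := by
  unfold FF
  have := nsq_cont (ι := ι)
  fun_prop

theorem FF_sq (y : ι → ℝ) :
    FF P q y ^ 2 = ‖P y‖ ^ 2 / q ^ 2 * Real.exp (-(nsq y - 1)) ^ 3 := by
  unfold FF
  rw [div_pow, mul_pow, ← Real.exp_nat_mul, ← Real.exp_nat_mul]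
  have : ((2 : ℕ) : ℝ) * (-(3 / 2) * (nsq y - 1)) = ((3 : ℕ) : ℝ) * (-(nsq y - 1)) := by
    push_cast
    ring
  rw [this]
  ring

theorem FF_sq_le (h : Peak P u q Q) (y : ι → ℝ) :
    FF P q y ^ 2 ≤ (nsq y * Real.exp (-(nsq y - 1))) ^ 3 := by
  rw [FF_sq, mul_pow]
  refine mul_le_mul_of_nonneg_right ?_ (by positivity)
  rw [div_le_iff₀ (by have := h.q0; positivity)]
  have := h.le y
  linarith

theorem FF_gauss (h : Peak P u q Q) (y : ι → ℝ) :
    FF P q y ≤ 3 * Real.exp (-(3 / 4 * nsq y)) := by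
  have h1 := FF_sq_le h y
  have h2 : (nsq y * Real.exp (-(nsq y - 1))) ^ 3 ≤ (2 * Real.exp (-(nsq y / 2))) ^ 3 :=
    pow_le_pow_left₀ (mul_nonneg (nsq_nonneg' y) (Real.exp_pos _).le) (t_exp2 _) 3
  have h3 : (2 * Real.exp (-(nsq y / 2))) ^ 3 ≤ (3 * Real.exp (-(3 / 4 * nsq y))) ^ 2 := by
    rw [mul_pow, mul_pow, ← Real.exp_nat_mul, ← Real.exp_nat_mul]
    have : ((3 : ℕ) : ℝ) * (-(nsq y / 2)) = ((2 : ℕ) : ℝ) * (-(3 / 4 * nsq y)) := by
      push_cast
      ring
    rw [this]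
    have := Real.exp_pos (((2 : ℕ) : ℝ) * (-(3 / 4 * nsq y)))
    nlinarith
  exact le_of_sq_le_sq ((h1.trans h2).trans h3) (by positivity)

theorem FF_le_one (h : Peak P u q Q) (y : ι → ℝ) : FF P q y ≤ 1 := by
  have h1 := FF_sq_le h y
  have h2 : (nsq y * Real.exp (-(nsq y - 1))) ^ 3 ≤ 1 ^ 3 :=
    pow_le_pow_left₀ (mul_nonneg (nsq_nonneg' y) (Real.exp_pos _).le) (t_exp _) 3
  exact le_of_sq_le_sq (by simpa using h1.trans h2) zero_le_one

theorem FF_lt_one (h : Peak P u q Q) (y : ι → ℝ) (h1 : y ≠ u) (h2 : y ≠ -u) : FF P q y < 1 := by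
  refine lt_of_le_of_ne (FF_le_one h y) (fun hc => ?_)
  have ht0 : 0 ≤ nsq y * Real.exp (-(nsq y - 1)) :=
    mul_nonneg (nsq_nonneg' y) (Real.exp_pos _).le
  have h3 : nsq y * Real.exp (-(nsq y - 1)) = 1 := by
    refine le_antisymm (t_exp _) ?_
    have h4 := FF_sq_le h y
    rw [hc] at h4
    by_contra hlt
    rw [not_le] at hlt
    have := pow_lt_one₀ ht0 hlt (n := 3) (by norm_num)
    linarith
  have ht1 : nsq y = 1 := t_exp_eq h3
  have h5 := FF_sq (P := P) (q := q) y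
  rw [hc, ht1] at h5
  have hq := h.q0
  have h6 : ‖P y‖ ^ 2 = q ^ 2 * nsq y ^ 3 := by
    rw [ht1]
    simp only [sub_self, neg_zero, Real.exp_zero, one_pow, mul_one] at h5 ⊢
    field_simp at h5
    linarith
  obtain ⟨s, hs⟩ := h.eq y h6
  have h7 : s ^ 2 = 1 := by
    have := nsq_smul s u
    rw [← hs, ht1, h.u1] at this
    linarith
  have h8 : (s - 1) * (s + 1) = 0 := by linarith
  rcases mul_eq_zero.1 h8 with h9 | h9
  · apply h1
    rw [hs, sub_eq_zero.1 h9, one_smul]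
  · apply h2
    rw [hs, eq_neg_of_add_eq_zero_left h9, neg_smul, one_smul]

theorem FF_neg (h : Peak P u q Q) (y : ι → ℝ) : FF P q (-y) = FF P q y := by
  have h1 : P (-y) = -P y := by
    have := h.hom (-1) y
    simp only [neg_smul, one_smul] at this
    rw [this]
    push_cast
    ring
  unfold FF
  rw [h1, norm_neg, nsq_neg]

theorem Q_bound (h : Peak P u q Q) : ∃ M : ℝ, 0 ≤ M ∧ ∀ x, ‖Q x‖ ≤ M * nsq x := by
  obtain ⟨M, hM⟩ := (compact_nsq (ι := ι) 1).exists_bound_of_continuousOn h.contQ.continuousOn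
  have hQ0 : Q 0 = 0 := by
    have := h.homQ 0 0
    simpa using this
  refine ⟨max M 0, le_max_right _ _, fun x => ?_⟩
  by_cases hx : nsq x = 0
  · rw [nsq_eq_zero hx, hQ0, nsq_zero]
    simp
  · have hpos : 0 < nsq x := lt_of_le_of_ne (nsq_nonneg' x) (Ne.symm hx)
    set s := Real.sqrt (nsq x) with hs
    have hs0 : 0 < s := Real.sqrt_pos.2 hpos
    have hs2 : s ^ 2 = nsq x := Real.sq_sqrt hpos.le
    have h1 : nsq (s⁻¹ • x) ≤ 1 := by
      rw [nsq_smul, inv_pow, hs2, inv_mul_cancel₀ hx]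
    have h2 : x = s • (s⁻¹ • x) := by
      rw [smul_smul, mul_inv_cancel₀ hs0.ne', one_smul]
    have h3 := h.homQ s (s⁻¹ • x)
    rw [← h2] at h3
    rw [h3, norm_mul, norm_pow, Complex.norm_real, Real.norm_eq_abs, abs_of_pos hs0, hs2,
      mul_comm]
    exact mul_le_mul_of_nonneg_right ((hM _ h1).trans (le_max_left _ _)) hpos.le

theorem FF_near (h : Peak P u q Q) : ∃ δ c : ℝ, 0 < δ ∧ 0 < c ∧ ∀ y, nsq (y - u) ≤ δ →
    FF P q y ≤ Real.exp (-(c * nsq (y - u))) := by
  obtain ⟨M, hM0, hM⟩ := Q_bound h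
  obtain ⟨c, hc0, hc⟩ := h.posQ
  obtain ⟨C, hC⟩ := h.exp
  set C' := max C 0 with hC'
  have hC'0 : 0 ≤ C' := le_max_right _ _
  set δ := min 1 (min (c / (M ^ 2 + 1)) (min (8 / (3 * c)) ((c / (8 * (C' + 1))) ^ 2))) with hδ
  have hδ0 : 0 < δ := by
    rw [hδ]
    positivity
  have hd1 : δ ≤ 1 := min_le_left _ _
  have hd2 : δ ≤ c / (M ^ 2 + 1) := (min_le_right _ _).trans (min_le_left _ _)
  have hd3 : δ ≤ 8 / (3 * c) :=
    (min_le_right _ _).trans ((min_le_right _ _).trans (min_le_left _ _))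
  have hd4 : δ ≤ (c / (8 * (C' + 1))) ^ 2 :=
    (min_le_right _ _).trans ((min_le_right _ _).trans (min_le_right _ _))
  refine ⟨δ, c / 4, hδ0, by positivity, fun y hy => ?_⟩
  set k := y - u with hk
  have hyk : y = u + k := by rw [hk]; abel
  set t := nsq k with ht
  have ht0 : 0 ≤ t := nsq_nonneg' k
  have h1 := hC k (hy.trans hd1)
  have h2 : FF P q y = ‖P (u + k) *
      ((Real.exp (-(3 / 2) * (nsq (u + k) - 1)) : ℝ) : ℂ) / (q : ℂ)‖ := by
    rw [hyk]
    unfold FF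
    rw [norm_div, norm_mul, Complex.norm_real, Complex.norm_real, Real.norm_eq_abs,
      Real.norm_eq_abs, abs_of_pos (Real.exp_pos _), abs_of_pos h.q0]
  have h3 : FF P q y ≤ ‖1 - Q k / 2‖ + C' * Real.sqrt t ^ 3 := by
    rw [h2]
    have h4 := norm_sub_norm_le (P (u + k) *
      ((Real.exp (-(3 / 2) * (nsq (u + k) - 1)) : ℝ) : ℂ) / (q : ℂ)) (1 - Q k / 2)
    have h5 : C * Real.sqrt (nsq k) ^ 3 ≤ C' * Real.sqrt t ^ 3 :=
      mul_le_mul_of_nonneg_right (le_max_left _ _) (by positivity)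
    linarith
  have h6 : ‖1 - Q k / 2‖ ≤ 1 - 3 * c / 8 * t := by
    have e1 : 3 * c / 8 * t ≤ 1 := by
      have : t ≤ 8 / (3 * c) := hy.trans hd3
      rw [le_div_iff₀ (by positivity)] at this
      linarith
    refine le_of_sq_le_sq ?_ (by linarith)
    have e2 : ‖1 - Q k / 2‖ ^ 2 = 1 - (Q k).re + ‖Q k‖ ^ 2 / 4 := by
      rw [← Complex.normSq_eq_norm_sq, ← Complex.normSq_eq_norm_sq, Complex.normSq_apply,
        Complex.normSq_apply]
      simp only [Complex.sub_re, Complex.one_re, Complex.sub_im, Complex.one_im,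
        Complex.div_ofNat_re, Complex.div_ofNat_im]
      ring
    rw [e2]
    have e3 := hc k
    have e4 : ‖Q k‖ ^ 2 ≤ (M * t) ^ 2 := pow_le_pow_left₀ (norm_nonneg _) (hM k) 2
    have e5 : M ^ 2 * t ≤ c := by
      have : t ≤ c / (M ^ 2 + 1) := hy.trans hd2
      rw [le_div_iff₀ (by positivity)] at this
      nlinarith
    have e6 : (M * t) ^ 2 ≤ c * t := by
      have : (M * t) ^ 2 = (M ^ 2 * t) * t := by ring
      rw [this]
      exact mul_le_mul_of_nonneg_right e5 ht0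
    nlinarith [sq_nonneg (3 * c / 8 * t)]
  have h7 : C' * Real.sqrt t ^ 3 ≤ c / 8 * t := by
    have e1 : Real.sqrt t ^ 3 = t * Real.sqrt t := by
      have := Real.sq_sqrt ht0
      calc Real.sqrt t ^ 3 = Real.sqrt t ^ 2 * Real.sqrt t := by ring
        _ = t * Real.sqrt t := by rw [this]
    have e2 : Real.sqrt t ≤ c / (8 * (C' + 1)) := by
      rw [Real.sqrt_le_left (by positivity)]
      exact hy.trans hd4
    rw [le_div_iff₀ (by positivity)] at e2
    have e3 : C' * Real.sqrt t ≤ c / 8 := by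
      have := Real.sqrt_nonneg t
      nlinarith
    rw [e1]
    calc C' * (t * Real.sqrt t) = (C' * Real.sqrt t) * t := by ring
      _ ≤ c / 8 * t := mul_le_mul_of_nonneg_right e3 ht0
  have h8 : FF P q y ≤ 1 - c / 4 * t := by linarith
  have h9 := Real.add_one_le_exp (-(c / 4 * t))
  linarith

theorem FF_far (h : Peak P u q Q) {δ : ℝ} (hδ : 0 < δ) : ∃ r : ℝ, 0 < r ∧ r < 1 ∧
    ∀ y, δ ≤ nsq (y - u) → δ ≤ nsq (y + u) → FF P q y ≤ r := by
  have hRex : ∃ R : ℝ, ∀ t : ℝ, R ≤ t → 3 * Real.exp (-(3 / 4 * t)) ≤ 1 / 2 := by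
    refine ⟨8, fun t ht => ?_⟩
    have h1 : Real.exp (-(3 / 4 * t)) ≤ Real.exp (-6) := Real.exp_le_exp.2 (by linarith)
    have h2 : Real.exp (-6) ≤ 1 / 7 := by
      rw [Real.exp_neg, ← one_div]
      apply one_div_le_one_div_of_le (by norm_num)
      have := Real.add_one_le_exp (6 : ℝ)
      linarith
    linarith
  obtain ⟨R, hR⟩ := hRex
  set K := {y : ι → ℝ | nsq y ≤ R} ∩ {y | δ ≤ nsq (y - u) ∧ δ ≤ nsq (y + u)} with hK
  have hKc : IsCompact K := by
    refine (compact_nsq R).inter_right ?_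
    have h1 : IsClosed {y : ι → ℝ | δ ≤ nsq (y - u)} :=
      isClosed_le continuous_const (nsq_cont.comp (continuous_id.sub continuous_const))
    have h2 : IsClosed {y : ι → ℝ | δ ≤ nsq (y + u)} :=
      isClosed_le continuous_const (nsq_cont.comp (continuous_id.add continuous_const))
    exact h1.inter h2
  have hfar : ∀ y, ¬ nsq y ≤ R → FF P q y ≤ 1 / 2 := fun y hy =>
    (FF_gauss h y).trans (hR _ (not_le.1 hy).le)
  rcases K.eq_empty_or_nonempty with hE | hN
  · refine ⟨1 / 2, by norm_num, by norm_num, fun y h1 h2 => ?_⟩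
    apply hfar
    intro h3
    have : y ∈ K := ⟨h3, h1, h2⟩
    rw [hE] at this
    exact this
  · obtain ⟨y₀, hy₀, hmax⟩ := hKc.exists_isMaxOn hN (FF_cont (P := P) (q := q) h.cont).continuousOn
    have hlt : FF P q y₀ < 1 := by
      apply FF_lt_one h
      · intro hc
        have := hy₀.2.1
        rw [hc, sub_self, nsq_zero] at this
        linarith
      · intro hc
        have := hy₀.2.2
        rw [hc, neg_add_cancel, nsq_zero] at this
        linarith
    refine ⟨max (FF P q y₀) (1 / 2), by positivity, max_lt hlt (by norm_num), fun y h1 h2 => ?_⟩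
    by_cases h3 : nsq y ≤ R
    · exact (hmax ⟨h3, h1, h2⟩).trans (le_max_left _ _)
    · exact (hfar y h3).trans (le_max_right _ _)

theorem FF_int (h : Peak P u q Q) (k : ℕ) : Integrable (fun y => FF P q y ^ (k + 1)) := by
  refine Integrable.mono' (g := fun y => 3 * Real.exp (-(3 / 4 * nsq y)))
    ((gauss_int (by norm_num)).const_mul 3) ?_ ?_
  · exact ((FF_cont (P := P) (q := q) h.cont).pow _).aestronglyMeasurable
  · refine Filter.Eventually.of_forall (fun y => ?_)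
    rw [Real.norm_eq_abs, abs_of_nonneg (pow_nonneg (FF_nonneg h.q0 y) _)]
    refine le_trans ?_ (FF_gauss h y)
    calc FF P q y ^ (k + 1) = FF P q y ^ k * FF P q y := pow_succ _ _
      _ ≤ 1 * FF P q y := mul_le_mul_of_nonneg_right
          (pow_le_one₀ (FF_nonneg h.q0 y) (FF_le_one h y)) (FF_nonneg h.q0 y)
      _ = FF P q y := one_mul _

theorem FF_main (h : Peak P u q Q) : ∃ c r I : ℝ, 0 < c ∧ 0 < r ∧ r < 1 ∧ 0 ≤ I ∧ ∀ k : ℕ,
    ∫ y, FF P q y ^ (k + 1) ≤
      2 * Real.sqrt (Real.pi / (c * ((k : ℝ) + 1))) ^ Fintype.card ι + r ^ k * I := by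
  obtain ⟨δ, c, hδ, hc, hnear⟩ := FF_near h
  obtain ⟨r, hr0, hr1, hfar⟩ := FF_far h hδ
  have hI := FF_int h 0
  refine ⟨c, r, ∫ y, FF P q y ^ (0 + 1), hc, hr0, hr1,
    integral_nonneg (fun y => pow_nonneg (FF_nonneg h.q0 y) _), fun k => ?_⟩
  set b : ℝ := c * ((k : ℝ) + 1) with hb
  have hb0 : 0 < b := by positivity
  have hg := gauss_int (ι := ι) hb0
  have i1 : Integrable (fun y : ι → ℝ => Real.exp (-(b * nsq (y - u)))) :=
    hg.comp_sub_right u
  have i2 : Integrable (fun y : ι → ℝ => Real.exp (-(b * nsq (y + u)))) :=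
    hg.comp_add_right u
  have v1 : ∫ y : ι → ℝ, Real.exp (-(b * nsq (y - u))) =
      Real.sqrt (Real.pi / b) ^ Fintype.card ι := by
    rw [integral_sub_right_eq_self (fun y : ι → ℝ => Real.exp (-(b * nsq y))) u, gauss_val]
  have v2 : ∫ y : ι → ℝ, Real.exp (-(b * nsq (y + u))) =
      Real.sqrt (Real.pi / b) ^ Fintype.card ι := by
    rw [integral_add_right_eq_self (fun y : ι → ℝ => Real.exp (-(b * nsq y))) u, gauss_val]
  have hpt : ∀ y, FF P q y ^ (k + 1) ≤ Real.exp (-(b * nsq (y - u))) +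
      Real.exp (-(b * nsq (y + u))) + r ^ k * FF P q y ^ (0 + 1) := by
    intro y
    have p1 := Real.exp_pos (-(b * nsq (y - u)))
    have p2 := Real.exp_pos (-(b * nsq (y + u)))
    have p0 := FF_nonneg (P := P) h.q0 y
    have p3 : 0 ≤ r ^ k * FF P q y ^ (0 + 1) := by positivity
    have e1 : ∀ s : ℝ, Real.exp (-(c * s)) ^ (k + 1) = Real.exp (-(b * s)) := by
      intro s
      rw [← Real.exp_nat_mul]
      congr 1
      rw [hb]
      push_cast
      ring
    by_cases h1 : nsq (y - u) ≤ δ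
    · have h2 := pow_le_pow_left₀ p0 (hnear y h1) (k + 1)
      rw [e1] at h2
      linarith
    · by_cases h3 : nsq (y + u) ≤ δ
      · have h4 : nsq (-y - u) ≤ δ := by
          have : -y - u = -(y + u) := by abel
          rw [this, nsq_neg]
          exact h3
        have h2 := pow_le_pow_left₀ (FF_nonneg (P := P) h.q0 (-y)) (hnear (-y) h4) (k + 1)
        rw [e1, FF_neg h] at h2
        have : -y - u = -(y + u) := by abel
        rw [this, nsq_neg] at h2
        linarith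
      · have h2 := hfar y (not_le.1 h1).le (not_le.1 h3).le
        have h4 : FF P q y ^ (k + 1) ≤ r ^ k * FF P q y ^ (0 + 1) := by
          rw [zero_add, pow_one, pow_succ]
          exact mul_le_mul_of_nonneg_right (pow_le_pow_left₀ p0 h2 k) p0
        linarith
  have i12 : Integrable (fun y : ι → ℝ => Real.exp (-(b * nsq (y - u))) +
      Real.exp (-(b * nsq (y + u)))) := i1.add i2
  have i3 : Integrable (fun y => r ^ k * FF P q y ^ (0 + 1)) := hI.const_mul (r ^ k)
  have i123 : Integrable (fun y : ι → ℝ => Real.exp (-(b * nsq (y - u))) +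
      Real.exp (-(b * nsq (y + u))) + r ^ k * FF P q y ^ (0 + 1)) := i12.add i3
  have h5 := integral_mono (FF_int h k) i123 hpt
  rw [integral_add i12 i3, integral_add i1 i2, v1, v2, integral_const_mul] at h5
  linarith

end pk

theorem LAPB : ST_LAPB := by
  intro ι _ P u q Q h v
  obtain ⟨c, r, I, hc, hr0, hr1, hI, hmain⟩ := FF_main h
  set D := Fintype.card ι with hD
  set a : ℝ := q * Real.exp (-(3 / 2)) with ha
  have ha0 : 0 < a := by
    have := h.q0
    positivity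
  have hlim : Tendsto (fun n : ℕ => ((n : ℝ) ^ D * r ^ n) * (1 / r ^ (v + 1) * I)) atTop (𝓝 0) := by
    have h1 := tendsto_pow_const_mul_const_pow_of_abs_lt_one D
      (by rw [abs_of_pos hr0]; exact hr1 : |r| < 1)
    simpa using h1.mul_const (1 / r ^ (v + 1) * I)
  refine ⟨(1 / a ^ v) * (2 * Real.sqrt (Real.pi / c * 2) ^ D + 1), ?_⟩
  filter_upwards [eventually_ge_atTop (2 * v + 2), hlim.eventually (gt_mem_nhds zero_lt_one)]
    with n hn hn1
  obtain ⟨k, rfl⟩ : ∃ k, n = v + (k + 1) := ⟨n - v - 1, by omega⟩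
  have hnk : v + (k + 1) - v = k + 1 := by omega
  rw [hnk]
  set n : ℕ := v + (k + 1) with hndef
  have hn0 : (1 : ℝ) ≤ n := by
    have : 1 ≤ n := by omega
    exact_mod_cast this
  have e1 : ∀ y : ι → ℝ, (‖P y‖ * Real.exp (-(3 / 2) * nsq y)) ^ (k + 1) =
      a ^ (k + 1) * FF P q y ^ (k + 1) := by
    intro y
    rw [← mul_pow]
    congr 1
    unfold FF
    rw [ha]
    have : Real.exp (-(3 / 2) * nsq y) =
        Real.exp (-(3 / 2)) * Real.exp (-(3 / 2) * (nsq y - 1)) := by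
      rw [← Real.exp_add]
      congr 1
      ring
    rw [this]
    have := h.q0.ne'
    field_simp
  simp only [e1]
  rw [integral_const_mul]
  have e2 : (n : ℝ) ^ ((D : ℝ) / 2) / a ^ n * (a ^ (k + 1) * ∫ y : ι → ℝ, FF P q y ^ (k + 1)) =
      1 / a ^ v * ((n : ℝ) ^ ((D : ℝ) / 2) * ∫ y : ι → ℝ, FF P q y ^ (k + 1)) := by
    rw [hndef, pow_add]
    field_simp
  rw [e2]
  refine mul_le_mul_of_nonneg_left ?_ (by positivity)
  have e3 : (n : ℝ) ^ ((D : ℝ) / 2) = Real.sqrt n ^ D := by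
    rw [Real.sqrt_eq_rpow, ← Real.rpow_mul_natCast (by positivity)]
    congr 1
    ring
  have e4 := hmain k
  have e5 : (n : ℝ) ^ ((D : ℝ) / 2) * ∫ y : ι → ℝ, FF P q y ^ (k + 1) ≤
      (n : ℝ) ^ ((D : ℝ) / 2) * (2 * Real.sqrt (Real.pi / (c * ((k : ℝ) + 1))) ^ D + r ^ k * I) :=
    mul_le_mul_of_nonneg_left e4 (by positivity)
  refine e5.trans ?_
  rw [mul_add]
  refine add_le_add ?_ ?_
  · rw [e3]
    have e6 : Real.sqrt n ^ D * (2 * Real.sqrt (Real.pi / (c * ((k : ℝ) + 1))) ^ D) =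
        2 * Real.sqrt ((n : ℝ) * (Real.pi / (c * ((k : ℝ) + 1)))) ^ D := by
      rw [Real.sqrt_mul (by positivity), mul_pow]
      ring
    rw [e6]
    refine mul_le_mul_of_nonneg_left (pow_le_pow_left₀ (Real.sqrt_nonneg _) ?_ D) (by norm_num)
    apply Real.sqrt_le_sqrt
    have hk1 : (n : ℝ) ≤ 2 * ((k : ℝ) + 1) := by
      have : n ≤ 2 * (k + 1) := by omega
      exact_mod_cast this
    have hk0 : (0 : ℝ) < (k : ℝ) + 1 := by positivity
    rw [← div_div, mul_div_assoc', div_le_iff₀ hk0]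
    have hp : 0 < Real.pi / c := div_pos Real.pi_pos hc
    nlinarith
  · have e7 : (n : ℝ) ^ ((D : ℝ) / 2) ≤ (n : ℝ) ^ D := by
      rw [← Real.rpow_natCast]
      apply Real.rpow_le_rpow_of_exponent_le hn0
      have : (0 : ℝ) ≤ D := by positivity
      linarith
    have e8 : r ^ k = r ^ n * (1 / r ^ (v + 1)) := by
      have : n = k + (v + 1) := by omega
      rw [this, pow_add]
      field_simp
    calc (n : ℝ) ^ ((D : ℝ) / 2) * (r ^ k * I) ≤ (n : ℝ) ^ D * (r ^ k * I) :=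
          mul_le_mul_of_nonneg_right e7 (by positivity)
      _ = ((n : ℝ) ^ D * r ^ n) * (1 / r ^ (v + 1) * I) := by rw [e8]; ring
      _ ≤ 1 := hn1.le

end Pool.Agent.Helper52.T4
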